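import Pool.Agent.helper13.U4.Spec

set_option autoImplicit false

namespace Pool.Agent.U4

open Pool.Agent.UL

lemma COL_ex (a b c : Bool) : ex1 a b c = true ↔ E1 (a = true) (b = true) (c = true) := by
  unfold ex1 E1
  revert a b c
  decide

lemma COL_E1 (a b c a' b' c' : Prop) (h1 : a ↔ a') (h2 : b ↔ b') (h3 : c ↔ c') : E1 a b c ↔ E1 a' b' c' := by
  rw [h1, h2, h3]

theorem COL : COL_stmt := by
  intro h v A B' C α β φ hh hA hB hC h0 hs hb
  have key : ∀ t, t ≤ v → ∀ B d, d < h → B * h + d = t → (C t = true ↔ φ B d) := by
    intro t
    induction t with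
    | zero =>
      intro _ B d hd he
      have hB0 : B * h = 0 := by omega
      have hB1 : B = 0 := by
        rcases Nat.mul_eq_zero.mp hB0 with h1 | h1
        · exact h1
        · omega
      have hd0 : d = 0 := by omega
      subst hB1
      subst hd0
      exact h0
    | succ t ih =>
      intro ht B d hd he
      rw [hC t (by omega), COL_ex]
      rcases Nat.eq_zero_or_pos d with hd0 | hd0
      · subst hd0
        rcases B with _ | B
        · omega
        · have e : B * h + (h - 1) = t := by
            rw [Nat.succ_mul] at he
            omega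
          rw [hb B]
          have i1 := ih (by omega) B (h - 1) (by omega) e
          have i2 := hB B (h - 1) (by omega) (by omega)
          have i3 := hA B (h - 1) (by omega) (by omega)
          rw [e] at i2 i3
          exact COL_E1 _ _ _ _ _ _ i1 i2 i3
      · obtain ⟨d', rfl⟩ : ∃ d', d = d' + 1 := ⟨d - 1, by omega⟩
        have e : B * h + d' = t := by omega
        rw [hs B d' hd]
        have i1 := ih (by omega) B d' (by omega) e
        have i2 := hB B d' (by omega) (by omega)
        have i3 := hA B d' (by omega) (by omega)
        rw [e] at i2 i3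
        exact COL_E1 _ _ _ _ _ _ i1 i2 i3
  intro B d hd hle
  exact key _ hle B d hd rfl

end Pool.Agent.U4
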