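import Pool.Agent.helper13.U4.Spec

set_option autoImplicit false

namespace Pool.Agent.U4

open Pool.Agent.UL

lemma FH3_mod8 (k h : ℕ) (hk : 3 ≤ k) (hh : h = 2 ^ k) : h % 8 = 0 ∧ 8 ≤ h := by
  obtain ⟨j, rfl⟩ : ∃ j, k = j + 3 := ⟨k - 3, by omega⟩
  rw [hh, pow_add]
  have h1 : 1 ≤ 2 ^ j := Nat.one_le_two_pow
  constructor <;> omega

theorem FH3 (h1 : HC1_stmt) (h2 : HC2_stmt) (h3 : HC3_stmt) (h4 : HC7_stmt) (h5 : HC8_stmt) : FH3_stmt := by
  intro k q h v x hpar hk hx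
  obtain ⟨-, -, M1, C0, C1⟩ := h1 k q h v x hpar hx
  obtain ⟨C2, C3, C4⟩ := h2 k q h v x hpar hx
  obtain ⟨C5, C6⟩ := h3 k q h v x hpar hk hx
  obtain ⟨-, e7, e8, -, -⟩ := h4 k q h v x hpar hk hx
  obtain ⟨-, C8⟩ := h5 k q h v x hpar hk hx
  obtain ⟨h8, hh8⟩ := FH3_mod8 k h hk hpar.hh
  have hv : 6 * h + 3 ≤ v := by
    have h2 := hpar.hv
    have h3 := hpar.hq
    have h4 : h * 7 ≤ h * q := Nat.mul_le_mul_left h h3
    have h5 : 2 * h * q = 2 * (h * q) := by ring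
    rw [h5] at h2
    omega
  have one : ∀ (r : ℕ) (φ : ℕ → ℕ → Prop), Col h v (fun t => x t r) φ → ∀ d, d < h → φ 1 d → x (h + d) r = true := by
    intro r φ hC d hd hφ
    have h6 := (hC 1 d hd (by omega)).mpr hφ
    rwa [Nat.one_mul] at h6
  have zer : ∀ (r : ℕ) (φ : ℕ → ℕ → Prop), Col h v (fun t => x t r) φ → ∀ d, d < h → φ 0 d → x d r = true := by
    intro r φ hC d hd hφ
    have h6 := (hC 0 d hd (by omega)).mpr hφ
    rwa [Nat.zero_mul, Nat.zero_add] at h6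
  exact
  { m1 := fun d hd => one _ _ M1 d hd (Or.inr rfl)
    a0 := fun d hd he => one _ _ C0 d hd (Or.inr (Or.inl ⟨rfl, he⟩))
    b0 := fun B d hB he hd hle => (C0 B d hd hle).mpr (Or.inr (Or.inr ⟨hB, he⟩))
    b1 := fun B d hB hd2 hd hle => (C1 B d hd hle).mpr ⟨hB, hd2⟩
    a2 := by
      intro t ht1 ht2
      rcases lt_or_ge t h with hlt | hge
      · exact zer _ _ C2 t hlt (Or.inl ⟨rfl, ht1⟩)
      · obtain ⟨d, rfl⟩ : ∃ d, t = h + d := ⟨t - h, by omega⟩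
        exact one _ _ C2 d (by omega) (Or.inr (Or.inl ⟨rfl, by omega⟩))
    b2 := fun B d hB he hd2 hd hle => (C2 B d hd hle).mpr (Or.inr (Or.inr ⟨hB, he, hd2⟩))
    a3 := by
      intro t ht1 ht2 ht3
      rcases lt_or_ge t h with hlt | hge
      · exact zer _ _ C3 t hlt (Or.inl ⟨rfl, ht1, ht3⟩)
      · obtain ⟨d, rfl⟩ : ∃ d, t = h + d := ⟨t - h, by omega⟩
        exact one _ _ C3 d (by omega) (Or.inr (Or.inl ⟨rfl, Or.inl (by omega)⟩))
    b3 := fun d hd => (C3 2 d hd (by omega)).mpr (Or.inr (Or.inr (Or.inl rfl)))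
    a4 := by
      intro t ht1 ht2 ht3
      rcases lt_or_ge t h with hlt | hge
      · exact zer _ _ C4 t hlt (Or.inl ⟨rfl, ht1, ht3⟩)
      · obtain ⟨d, rfl⟩ : ∃ d, t = h + d := ⟨t - h, by omega⟩
        exact one _ _ C4 d (by omega) (Or.inr (Or.inl ⟨rfl, by omega⟩))
    a4' := fun d hd hd4 => one _ _ C4 d hd (Or.inr (Or.inl ⟨rfl, hd4⟩))
    a4'' := fun d hd hd2 => (C4 2 d hd (by omega)).mpr (Or.inr (Or.inr (Or.inl ⟨rfl, hd2⟩)))
    b4 := fun B d hB he hd hle => (C4 B d hd hle).mpr (Or.inr (Or.inr (Or.inr (Or.inr (Or.inl ⟨hB, he⟩)))))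
    b4' := fun B d hB he hd4 hd hle => (C4 B d hd hle).mpr (Or.inr (Or.inr (Or.inr (Or.inr (Or.inr ⟨hB, he, hd4⟩)))))
    a5 := one _ _ C5 3 (by omega) (Or.inl ⟨rfl, Or.inl rfl⟩)
    a5' := (C5 2 (h - 2) (by omega) (by omega)).mpr (Or.inr (Or.inl ⟨le_refl _, rfl, by omega⟩))
    b5 := fun B d hB he hd2 hd hle => (C5 B d hd hle).mpr (Or.inr (Or.inl ⟨by omega, he, hd2⟩))
    b5' := fun B d hB he hd4 hd hle => (C5 B d hd hle).mpr (Or.inr (Or.inr ⟨hB, he, hd4⟩))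
    a6 := ⟨zer _ _ C6 (h - 2) (by omega) (Or.inl ⟨rfl, by omega⟩),
      one _ _ C6 1 (by omega) (Or.inr (Or.inl ⟨rfl, Or.inl rfl⟩)),
      one _ _ C6 2 (by omega) (Or.inr (Or.inl ⟨rfl, Or.inr (Or.inl rfl)⟩))⟩
    b6 := by
      intro t ht1 ht2 ht3
      obtain ⟨B, hB⟩ : ∃ B, B = t / h := ⟨_, rfl⟩
      obtain ⟨d, hd⟩ : ∃ d, d = t % h := ⟨_, rfl⟩
      have hlt : d < h := by
        rw [hd]
        exact Nat.mod_lt _ (by omega)
      have e : B * h + d = t := by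
        rw [hB, hd, Nat.mul_comm]
        exact Nat.div_add_mod _ _
      have hB4 : 4 ≤ B := by
        by_contra hcon
        have h2 : B + 1 ≤ 4 := by omega
        have := Nat.mul_le_mul_right h h2
        rw [Nat.succ_mul] at this
        omega
      have hmod : t % 2 = d % 2 := by
        rw [← e]
        obtain ⟨c, hc⟩ : ∃ c, h = 2 * c := ⟨h / 2, by omega⟩
        rw [hc]
        have : B * (2 * c) = 2 * (B * c) := by ring
        rw [this]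
        omega
      have h7 := (C6 B d hlt (by omega)).mpr (Or.inr (Or.inr (Or.inr (Or.inr ⟨hB4, by omega⟩))))
      rwa [e] at h7
    b8 := fun t ht1 ht2 ht3 => (C8 t ht1 ht2).mpr ht3
    e7 := e7
    e8 := e8 }

end Pool.Agent.U4
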