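import Pool.Agent.helper13.U4.SpecY

set_option autoImplicit false
set_option maxRecDepth 100000

namespace Pool.Agent.U4

open Pool.Agent.UL

lemma KL3_b : ∀ a0 a1 a2 a3 a4 a5 a6 a7 a8 a9 : Bool,
    [ex1 a0 a1 a2, ex1 a5 a6 a7, ex1 a7 a8 a9, a0, a1, a2, a5, a6, a8, a9].count true ≤ 1 →
    ex1 (ex1 a0 a1 a2) (ex1 a1 a2 a3) (ex1 a2 a3 a4) = false →
    ex1 (ex1 a1 a2 a3) (ex1 a2 a3 a4) (ex1 a3 a4 a5) = false →
    ex1 (ex1 a2 a3 a4) (ex1 a3 a4 a5) (ex1 a4 a5 a6) = false →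
    ex1 (ex1 a3 a4 a5) (ex1 a4 a5 a6) (ex1 a5 a6 a7) = false →
    ex1 a0 a1 a2 = false ∧ ex1 a1 a2 a3 = false := by
  decide

theorem KL3 : KL3_stmt := by
  intro u w hw hc he
  have h0 := hw 0 (by norm_num)
  have h1 := hw 1 (by norm_num)
  have h2 := hw 2 (by norm_num)
  have h3 := hw 3 (by norm_num)
  have h4 := hw 4 (by norm_num)
  have h5 := hw 5 (by norm_num)
  have h6 := hw 6 (by norm_num)
  have h7 := hw 7 (by norm_num)
  have e0 := he 0 (by norm_num)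
  have e1 := he 1 (by norm_num)
  have e2 := he 2 (by norm_num)
  have e3 := he 3 (by norm_num)
  norm_num at h0 h1 h2 h3 h4 h5 h6 h7 e0 e1 e2 e3
  rw [h0, h5, h7] at hc
  rw [h0, h1, h2] at e0
  rw [h1, h2, h3] at e1
  rw [h2, h3, h4] at e2
  rw [h3, h4, h5] at e3
  rw [h0, h1]
  exact KL3_b (u 0) (u 1) (u 2) (u 3) (u 4) (u 5) (u 6) (u 7) (u 8) (u 9) hc e0 e1 e2 e3

end Pool.Agent.U4
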