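import Pool.Agent.helper13.U4.Spec

set_option autoImplicit false

namespace Pool.Agent.U4

open Pool.Agent.UL

lemma KP3_mod8 (k h : ℕ) (hk : 3 ≤ k) (hh : h = 2 ^ k) : h % 8 = 0 ∧ 8 ≤ h := by
  obtain ⟨j, rfl⟩ : ∃ j, k = j + 3 := ⟨k - 3, by omega⟩
  rw [hh, pow_add]
  have h1 : 1 ≤ 2 ^ j := Nat.one_le_two_pow
  constructor <;> omega

lemma KP3_v3_1 (d : ℕ) (h1 : 4 ≤ d) (h2 : d % 4 ≤ 1) : c3 1 d := Or.inr (Or.inl ⟨rfl, Or.inr ⟨h1, h2⟩⟩)
lemma KP3_v3_2 (d : ℕ) : c3 2 d := Or.inr (Or.inr (Or.inl rfl))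
lemma KP3_v3_3 (d : ℕ) (h1 : d ≤ 1) : c3 3 d := Or.inr (Or.inr (Or.inr ⟨rfl, h1⟩))
lemma KP3_v4_1 (d : ℕ) (h1 : d % 4 ≠ 1) : c4 1 d := Or.inr (Or.inl ⟨rfl, h1⟩)
lemma KP3_v4_2 (d : ℕ) (h1 : d % 2 = 0) : c4 2 d := Or.inr (Or.inr (Or.inl ⟨rfl, h1⟩))
lemma KP3_v4_3 (d : ℕ) (h1 : d = 0 ∨ (4 ≤ d ∧ d % 4 ≤ 1)) : c4 3 d := Or.inr (Or.inr (Or.inr (Or.inl ⟨rfl, h1⟩)))
lemma KP3_v4_e (B d : ℕ) (h1 : 4 ≤ B) (h2 : B % 2 = 0) : c4 B d :=
  Or.inr (Or.inr (Or.inr (Or.inr (Or.inl ⟨h1, h2⟩))))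
lemma KP3_v4_o (B d : ℕ) (h1 : 5 ≤ B) (h2 : B % 2 = 1) (h3 : d % 4 ≤ 1) : c4 B d :=
  Or.inr (Or.inr (Or.inr (Or.inr (Or.inr ⟨h1, h2, h3⟩))))
lemma KP3_v5_1 (d : ℕ) (h1 : d = 3 ∨ (6 ≤ d ∧ d % 2 = 0)) : c5 1 d := Or.inl ⟨rfl, h1⟩
lemma KP3_v5_e (B d : ℕ) (h1 : 2 ≤ B) (h2 : B % 2 = 0) (h3 : d % 2 = 0) : c5 B d := Or.inr (Or.inl ⟨h1, h2, h3⟩)
lemma KP3_v5_o (B d : ℕ) (h1 : 3 ≤ B) (h2 : B % 2 = 1) (h3 : d % 4 ≠ 1) : c5 B d := Or.inr (Or.inr ⟨h1, h2, h3⟩)
lemma KP3_v6_1 (d : ℕ) (h1 : d = 1 ∨ d = 2 ∨ d = 5 ∨ d = 6 ∨ (8 ≤ d ∧ d % 4 = 0)) : c6 1 d := Or.inr (Or.inl ⟨rfl, h1⟩)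
lemma KP3_v6_3 (d : ℕ) (h1 : d = 3 ∨ (6 ≤ d ∧ d % 2 = 0)) : c6 3 d := Or.inr (Or.inr (Or.inr (Or.inl ⟨rfl, h1⟩)))
lemma KP3_v6_4 (B d : ℕ) (h1 : 4 ≤ B) (h2 : d % 2 = 0) : c6 B d := Or.inr (Or.inr (Or.inr (Or.inr ⟨h1, h2⟩)))

theorem KP3 (h1 : HC1_stmt) (h2 : HC2_stmt) (h3 : HC3_stmt) (h4 : HC7_stmt) : KP3_stmt := by
  intro k q h v x hpar hk hx t ht1 ht2 ht3
  obtain ⟨-, -, M1, C0, C1⟩ := h1 k q h v x hpar hx
  obtain ⟨C2, C3, C4⟩ := h2 k q h v x hpar hx
  obtain ⟨C5, C6⟩ := h3 k q h v x hpar hk hx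
  obtain ⟨-, e7, e8, e73, e75⟩ := h4 k q h v x hpar hk hx
  obtain ⟨h8, hh8⟩ := KP3_mod8 k h hk hpar.hh
  have hv0 : v + 1 = 2 * (h * q) + h := by
    have h2 := hpar.hv
    have h5 : 2 * h * q = 2 * (h * q) := by ring
    rwa [h5] at h2
  have hv : 15 * h ≤ v + 1 := by
    have h3 := hpar.hq
    have h4 : h * 7 ≤ h * q := Nat.mul_le_mul_left h h3
    omega
  have val : ∀ (r : ℕ) (φ : ℕ → ℕ → Prop), Col h v (fun t => x t r) φ → ∀ B d s, B * h + d = s → d < h → s ≤ v →
      φ B d → x s r = true := by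
    intro r φ hC B d s hs hd hle hφ
    have h6 := (hC B d hd (by omega)).mpr hφ
    rwa [hs] at h6
  obtain ⟨B, hB⟩ : ∃ B, B = t / h := ⟨_, rfl⟩
  obtain ⟨d, hd⟩ : ∃ d, d = t % h := ⟨_, rfl⟩
  have hlt : d < h := by
    rw [hd]
    exact Nat.mod_lt _ (by omega)
  have e : B * h + d = t := by
    rw [hB, hd, Nat.mul_comm]
    exact Nat.div_add_mod _ _
  have hd2 : d % 2 = 0 := by
    rw [← e] at ht3
    obtain ⟨c, hc⟩ : ∃ c, h = 2 * c := ⟨h / 2, by omega⟩
    rw [hc] at ht3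
    have : B * (2 * c) = 2 * (B * c) := by ring
    rw [this] at ht3
    omega
  have hd1 : d + 1 < h := by omega
  have eB1 : (B + 1) * h = B * h + h := Nat.succ_mul B h
  clear hB hd
  have hBcase : B = 1 ∨ B = 2 ∨ B = 3 ∨ 4 ≤ B := by
    rcases Nat.eq_zero_or_pos B with h0 | h0
    · subst h0
      omega
    · omega
  rcases hBcase with rfl | rfl | rfl | hB4
  · -- B = 1
    rcases Nat.lt_or_ge d 3 with hd3 | hd3
    · have hdd : d = 2 := by omega
      subst hdd
      have et : t = h + 2 := by omega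
      subst et
      refine Or.inr (Or.inr (Or.inl ⟨rfl, ?_, ?_, ?_, ?_, ?_, ?_, ?_, ?_, ?_, ?_⟩))
      · exact val _ _ M1 1 2 _ e hlt (by omega) (Or.inr rfl)
      · exact val _ _ C4 1 2 _ e hlt (by omega) (KP3_v4_1 _ (by norm_num))
      · exact val _ _ C6 1 2 _ e hlt (by omega) (KP3_v6_1 _ (by norm_num))
      · exact val _ _ M1 1 3 _ (by omega) hd1 (by omega) (Or.inr rfl)
      · exact val _ _ C0 1 3 _ (by omega) hd1 (by omega) (Or.inr (Or.inl ⟨rfl, by norm_num⟩))
      · exact val _ _ C1 1 3 _ (by omega) hd1 (by omega) ⟨by norm_num, by norm_num⟩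
      · exact val _ _ C4 1 3 _ (by omega) hd1 (by omega) (KP3_v4_1 _ (by norm_num))
      · exact val _ _ C5 1 3 _ (by omega) hd1 (by omega) (KP3_v5_1 _ (by norm_num))
      · exact e7
      · exact e8
    · rcases Nat.lt_or_ge d 5 with hd5 | hd5
      · have hdd : d = 4 := by omega
        subst hdd
        refine Or.inr (Or.inl ⟨by omega, by omega, 3, le_refl _, by norm_num, ?_, ?_, ?_, ?_⟩)
        · exact val _ _ C3 1 4 _ e hlt (by omega) (KP3_v3_1 _ (by norm_num) (by norm_num))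
        · exact val _ _ C4 1 4 _ e hlt (by omega) (KP3_v4_1 _ (by norm_num))
        · exact val _ _ C3 1 5 _ (by omega) hd1 (by omega) (KP3_v3_1 _ (by norm_num) (by norm_num))
        · exact val _ _ C6 1 5 _ (by omega) hd1 (by omega) (KP3_v6_1 _ (by norm_num))
      · rcases Nat.lt_or_ge d 7 with hd7 | hd7
        · have hdd : d = 6 := by omega
          subst hdd
          refine Or.inl ⟨by omega, 4, by norm_num, le_refl _, ?_, ?_, ?_⟩
          · exact val _ _ C4 1 6 _ e hlt (by omega) (KP3_v4_1 _ (by norm_num))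
          · exact val _ _ C5 1 6 _ e hlt (by omega) (KP3_v5_1 _ (by norm_num))
          · exact val _ _ C6 1 6 _ e hlt (by omega) (KP3_v6_1 _ (by norm_num))
        · have hm : d % 4 = 0 ∨ d % 4 = 2 := by omega
          rcases hm with hm | hm
          · refine Or.inl ⟨by omega, 3, le_refl _, by norm_num, ?_, ?_, ?_⟩
            · exact val _ _ C3 1 d _ e hlt (by omega) (KP3_v3_1 _ (by omega) (by omega))
            · exact val _ _ C4 1 d _ e hlt (by omega) (KP3_v4_1 _ (by omega))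
            · exact val _ _ C5 1 d _ e hlt (by omega) (KP3_v5_1 _ (Or.inr ⟨by omega, hd2⟩))
          · have L : x (t + 2) (2 * h + 3) = true ∧ x (t + 2) (2 * h + 4) = true ∧ x (t + 2) (2 * h + 5) = true := by
              rcases Nat.lt_or_ge (d + 2) h with h2 | h2
              · exact ⟨val _ _ C3 1 (d + 2) _ (by omega) h2 (by omega) (KP3_v3_1 _ (by omega) (by omega)),
                  val _ _ C4 1 (d + 2) _ (by omega) h2 (by omega) (KP3_v4_1 _ (by omega)),
                  val _ _ C5 1 (d + 2) _ (by omega) h2 (by omega) (KP3_v5_1 _ (Or.inr ⟨by omega, by omega⟩))⟩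
              · exact ⟨val _ _ C3 2 0 _ (by omega) (by omega) (by omega) (KP3_v3_2 _),
                  val _ _ C4 2 0 _ (by omega) (by omega) (by omega) (KP3_v4_2 _ (by norm_num)),
                  val _ _ C5 2 0 _ (by omega) (by omega) (by omega) (KP3_v5_e _ _ (le_refl _) (by norm_num) (by norm_num))⟩
            refine Or.inr (Or.inr (Or.inr (Or.inr (Or.inl ⟨by omega, by omega, 4, le_refl _, by norm_num,
              ⟨?_, ?_, ?_, ?_⟩, ?_, ?_, ?_, L.1, L.2.1, L.2.2⟩))))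
            · exact val _ _ M1 1 d _ e hlt (by omega) (Or.inr rfl)
            · exact val _ _ M1 1 (d + 1) _ (by omega) hd1 (by omega) (Or.inr rfl)
            · have e9 : 2 * h + 4 - 5 + 1 = 2 * h := by omega
              rw [e9]
              exact val _ _ C0 1 (d + 1) _ (by omega) hd1 (by omega) (Or.inr (Or.inl ⟨rfl, by omega⟩))
            · have e9 : 2 * h + 4 - 5 + 2 = 2 * h + 1 := by omega
              rw [e9]
              exact val _ _ C1 1 (d + 1) _ (by omega) hd1 (by omega) ⟨by norm_num, by omega⟩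
            · exact val _ _ C4 1 d _ e hlt (by omega) (KP3_v4_1 _ (by omega))
            · exact val _ _ C5 1 d _ e hlt (by omega) (KP3_v5_1 _ (Or.inr ⟨by omega, hd2⟩))
            · exact val _ _ C4 1 (d + 1) _ (by omega) hd1 (by omega) (KP3_v4_1 _ (by omega))
  · -- B = 2
    refine Or.inl ⟨by omega, 3, le_refl _, by norm_num, ?_, ?_, ?_⟩
    · exact val _ _ C3 2 d _ e hlt (by omega) (KP3_v3_2 _)
    · exact val _ _ C4 2 d _ e hlt (by omega) (KP3_v4_2 _ hd2)
    · exact val _ _ C5 2 d _ e hlt (by omega) (KP3_v5_e _ _ (le_refl _) (by norm_num) hd2)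
  · -- B = 3
    rcases Nat.lt_or_ge d 1 with hd1' | hd1'
    · have hdd : d = 0 := by omega
      subst hdd
      refine Or.inl ⟨by omega, 3, le_refl _, by norm_num, ?_, ?_, ?_⟩
      · exact val _ _ C3 3 0 _ e hlt (by omega) (KP3_v3_3 _ (by norm_num))
      · exact val _ _ C4 3 0 _ e hlt (by omega) (KP3_v4_3 _ (Or.inl rfl))
      · exact val _ _ C5 3 0 _ e hlt (by omega) (KP3_v5_o _ _ (le_refl _) (by norm_num) (by norm_num))
    · rcases Nat.lt_or_ge d 3 with hd3 | hd3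
      · have hdd : d = 2 := by omega
        subst hdd
        have et : t = 3 * h + 2 := by omega
        subst et
        refine Or.inr (Or.inr (Or.inr (Or.inl ⟨rfl, ⟨?_, ?_, ?_, ?_⟩, ⟨?_, ?_, ?_, ?_⟩⟩)))
        · exact val _ _ C0 3 2 _ e hlt (by omega) (Or.inr (Or.inr ⟨le_refl _, by norm_num⟩))
        · exact val _ _ C0 3 3 _ (by omega) hd1 (by omega) (Or.inr (Or.inr ⟨le_refl _, by norm_num⟩))
        · exact val _ _ C1 3 3 _ (by omega) hd1 (by omega) ⟨by norm_num, by norm_num⟩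
        · exact val _ _ C2 3 3 _ (by omega) hd1 (by omega) (Or.inr (Or.inr ⟨le_refl _, by norm_num, by norm_num⟩))
        · exact val _ _ C5 3 2 _ e hlt (by omega) (KP3_v5_o _ _ (le_refl _) (by norm_num) (by norm_num))
        · exact val _ _ C5 3 3 _ (by omega) hd1 (by omega) (KP3_v5_o _ _ (le_refl _) (by norm_num) (by norm_num))
        · exact val _ _ C6 3 3 _ (by omega) hd1 (by omega) (KP3_v6_3 _ (Or.inl rfl))
        · exact e73
      · rcases Nat.lt_or_ge d 5 with hd5 | hd5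
        · have hdd : d = 4 := by omega
          subst hdd
          have et : t = 3 * h + 4 := by omega
          subst et
          refine Or.inr (Or.inl ⟨by omega, by omega, 4, by norm_num, le_refl _, ?_, ?_, ?_, ?_⟩)
          · exact val _ _ C4 3 4 _ e hlt (by omega) (KP3_v4_3 _ (Or.inr ⟨le_refl _, by norm_num⟩))
          · exact val _ _ C5 3 4 _ e hlt (by omega) (KP3_v5_o _ _ (le_refl _) (by norm_num) (by norm_num))
          · exact val _ _ C4 3 5 _ (by omega) hd1 (by omega) (KP3_v4_3 _ (Or.inr ⟨by norm_num, by norm_num⟩))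
          · exact e75
        · have hm : d % 4 = 0 ∨ d % 4 = 2 := by omega
          rcases hm with hm | hm
          · refine Or.inl ⟨by omega, 4, by norm_num, le_refl _, ?_, ?_, ?_⟩
            · exact val _ _ C4 3 d _ e hlt (by omega) (KP3_v4_3 _ (Or.inr ⟨by omega, by omega⟩))
            · exact val _ _ C5 3 d _ e hlt (by omega) (KP3_v5_o _ _ (le_refl _) (by norm_num) (by omega))
            · exact val _ _ C6 3 d _ e hlt (by omega) (KP3_v6_3 _ (Or.inr ⟨by omega, hd2⟩))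
          · have L : x (t + 2) (2 * h + 4) = true ∧ x (t + 2) (2 * h + 5) = true ∧ x (t + 2) (2 * h + 6) = true := by
              rcases Nat.lt_or_ge (d + 2) h with h2 | h2
              · exact ⟨val _ _ C4 3 (d + 2) _ (by omega) h2 (by omega) (KP3_v4_3 _ (Or.inr ⟨by omega, by omega⟩)),
                  val _ _ C5 3 (d + 2) _ (by omega) h2 (by omega) (KP3_v5_o _ _ (le_refl _) (by norm_num) (by omega)),
                  val _ _ C6 3 (d + 2) _ (by omega) h2 (by omega) (KP3_v6_3 _ (Or.inr ⟨by omega, by omega⟩))⟩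
              · exact ⟨val _ _ C4 4 0 _ (by omega) (by omega) (by omega) (KP3_v4_e _ _ (le_refl _) (by norm_num)),
                  val _ _ C5 4 0 _ (by omega) (by omega) (by omega) (KP3_v5_e _ _ (by norm_num) (by norm_num) (by norm_num)),
                  val _ _ C6 4 0 _ (by omega) (by omega) (by omega) (KP3_v6_4 _ _ (le_refl _) (by norm_num))⟩
            refine Or.inr (Or.inr (Or.inr (Or.inr (Or.inl ⟨by omega, by omega, 5, by norm_num, le_refl _,
              ⟨?_, ?_, ?_, ?_⟩, ?_, ?_, ?_, L.1, L.2.1, L.2.2⟩))))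
            · exact val _ _ C0 3 d _ e hlt (by omega) (Or.inr (Or.inr ⟨le_refl _, by norm_num⟩))
            · exact val _ _ C0 3 (d + 1) _ (by omega) hd1 (by omega) (Or.inr (Or.inr ⟨le_refl _, by norm_num⟩))
            · exact val _ _ C1 3 (d + 1) _ (by omega) hd1 (by omega) ⟨by norm_num, by omega⟩
            · exact val _ _ C2 3 (d + 1) _ (by omega) hd1 (by omega) (Or.inr (Or.inr ⟨le_refl _, by norm_num, by omega⟩))
            · exact val _ _ C5 3 d _ e hlt (by omega) (KP3_v5_o _ _ (le_refl _) (by norm_num) (by omega))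
            · exact val _ _ C6 3 d _ e hlt (by omega) (KP3_v6_3 _ (Or.inr ⟨by omega, hd2⟩))
            · exact val _ _ C5 3 (d + 1) _ (by omega) hd1 (by omega) (KP3_v5_o _ _ (le_refl _) (by norm_num) (by omega))
  · -- 4 ≤ B
    have hBh : 4 * h ≤ B * h := Nat.mul_le_mul_right h hB4
    rcases Nat.mod_two_eq_zero_or_one B with he | he
    · refine Or.inl ⟨by omega, 4, by norm_num, le_refl _, ?_, ?_, ?_⟩
      · exact val _ _ C4 B d _ e hlt (by omega) (KP3_v4_e _ _ hB4 he)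
      · exact val _ _ C5 B d _ e hlt (by omega) (KP3_v5_e _ _ (by omega) he hd2)
      · exact val _ _ C6 B d _ e hlt (by omega) (KP3_v6_4 _ _ hB4 hd2)
    · have hB5 : 5 ≤ B := by omega
      have hm : d % 4 = 0 ∨ d % 4 = 2 := by omega
      rcases hm with hm | hm
      · refine Or.inl ⟨by omega, 4, by norm_num, le_refl _, ?_, ?_, ?_⟩
        · exact val _ _ C4 B d _ e hlt (by omega) (KP3_v4_o _ _ hB5 he (by omega))
        · exact val _ _ C5 B d _ e hlt (by omega) (KP3_v5_o _ _ (by omega) he (by omega))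
        · exact val _ _ C6 B d _ e hlt (by omega) (KP3_v6_4 _ _ hB4 hd2)
      · have ht5 : t + 3 ≤ v := by
          have hBq : B ≤ 2 * q := by
            by_contra hcon
            have h9 := Nat.mul_le_mul_right h (not_le.mp hcon)
            have h10 : (2 * q).succ * h = 2 * (h * q) + h := by
              rw [Nat.succ_mul]
              ring
            rw [h10] at h9
            omega
          have hBq2 : B + 1 ≤ 2 * q := by omega
          have h9 := Nat.mul_le_mul_right h hBq2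
          have h10 : (2 * q) * h = 2 * (h * q) := by ring
          rw [h10, eB1] at h9
          omega
        have L : x (t + 2) (2 * h + 4) = true ∧ x (t + 2) (2 * h + 5) = true ∧ x (t + 2) (2 * h + 6) = true := by
          rcases Nat.lt_or_ge (d + 2) h with h2 | h2
          · exact ⟨val _ _ C4 B (d + 2) _ (by omega) h2 (by omega) (KP3_v4_o _ _ hB5 he (by omega)),
              val _ _ C5 B (d + 2) _ (by omega) h2 (by omega) (KP3_v5_o _ _ (by omega) he (by omega)),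
              val _ _ C6 B (d + 2) _ (by omega) h2 (by omega) (KP3_v6_4 _ _ hB4 (by omega))⟩
          · exact ⟨val _ _ C4 (B + 1) 0 _ (by omega) (by omega) (by omega) (KP3_v4_e _ _ (by omega) (by omega)),
              val _ _ C5 (B + 1) 0 _ (by omega) (by omega) (by omega) (KP3_v5_e _ _ (by omega) (by omega) (by norm_num)),
              val _ _ C6 (B + 1) 0 _ (by omega) (by omega) (by omega) (KP3_v6_4 _ _ (by omega) (by norm_num))⟩
        refine Or.inr (Or.inr (Or.inr (Or.inr (Or.inl ⟨by omega, ht5, 5, by norm_num, le_refl _,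
          ⟨?_, ?_, ?_, ?_⟩, ?_, ?_, ?_, L.1, L.2.1, L.2.2⟩))))
        · exact val _ _ C0 B d _ e hlt (by omega) (Or.inr (Or.inr ⟨by omega, he⟩))
        · exact val _ _ C0 B (d + 1) _ (by omega) hd1 (by omega) (Or.inr (Or.inr ⟨by omega, he⟩))
        · exact val _ _ C1 B (d + 1) _ (by omega) hd1 (by omega) ⟨he, by omega⟩
        · exact val _ _ C2 B (d + 1) _ (by omega) hd1 (by omega) (Or.inr (Or.inr ⟨by omega, he, by omega⟩))
        · exact val _ _ C5 B d _ e hlt (by omega) (KP3_v5_o _ _ (by omega) he (by omega))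
        · exact val _ _ C6 B d _ e hlt (by omega) (KP3_v6_4 _ _ hB4 hd2)
        · exact val _ _ C5 B (d + 1) _ (by omega) hd1 (by omega) (KP3_v5_o _ _ (by omega) he (by omega))

end Pool.Agent.U4
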