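import Pool.Agent.helper13.U4.Spec

set_option autoImplicit false

namespace Pool.Agent.U4

open Pool.Agent.UL

lemma HC8_ex (a b c : Bool) : ex1 a b c = true ↔ E1 (a = true) (b = true) (c = true) := by
  unfold ex1 E1
  revert a b c
  decide

lemma HC8_E1 (a b c a' b' c' : Prop) (h1 : a ↔ a') (h2 : b ↔ b') (h3 : c ↔ c') : E1 a b c ↔ E1 a' b' c' := by
  rw [h1, h2, h3]

lemma HC8_mod8 (k h : ℕ) (hk : 3 ≤ k) (hh : h = 2 ^ k) : h % 8 = 0 ∧ 8 ≤ h := by
  obtain ⟨j, rfl⟩ : ∃ j, k = j + 3 := ⟨k - 3, by omega⟩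
  rw [hh, pow_add]
  have h1 : 1 ≤ 2 ^ j := Nat.one_le_two_pow
  constructor <;> omega

lemma HC8_s6 (B d : ℕ) (hB : 4 ≤ B) : c6 B d ↔ d % 2 = 0 := by
  unfold c6
  constructor
  · rintro (h | h | h | h | h) <;> omega
  · intro h
    exact Or.inr (Or.inr (Or.inr (Or.inr ⟨hB, h⟩)))

lemma HC8_s5e (B d : ℕ) (hB : 4 ≤ B) (he : B % 2 = 0) : c5 B d ↔ d % 2 = 0 := by
  unfold c5
  constructor
  · rintro (h | h | h) <;> omega
  · intro h
    exact Or.inr (Or.inl ⟨by omega, he, h⟩)

lemma HC8_s5o (B d : ℕ) (hB : 4 ≤ B) (he : B % 2 = 1) : c5 B d ↔ d % 4 ≠ 1 := by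
  unfold c5
  constructor
  · rintro (h | h | h) <;> omega
  · intro h
    exact Or.inr (Or.inr ⟨by omega, he, h⟩)

lemma HC8_s7e (B d : ℕ) (he : B % 2 = 0) : c7 B d ↔ d = 0 := by
  unfold c7
  constructor
  · rintro (h | h) <;> omega
  · intro h
    exact Or.inl ⟨he, h⟩

lemma HC8_s7o (B d : ℕ) (he : B % 2 = 1) : c7 B d ↔ 4 ≤ d ∧ d % 4 = 0 := by
  unfold c7
  constructor
  · rintro (h | h) <;> omega
  · intro h
    exact Or.inr ⟨he, h⟩

lemma HC8_st (B d : ℕ) (hB : 4 ≤ B) : E1 (c7 B d) (c6 B d) (c5 B d) ↔ c7 B (d + 1) := by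
  rcases Nat.mod_two_eq_zero_or_one B with he | he
  · rw [HC8_s7e _ _ he, HC8_s7e _ _ he, HC8_s6 _ _ hB, HC8_s5e _ _ hB he]
    unfold E1
    constructor
    · rintro (h | h | h) <;> omega
    · intro h
      omega
  · rw [HC8_s7o _ _ he, HC8_s7o _ _ he, HC8_s6 _ _ hB, HC8_s5o _ _ hB he]
    unfold E1
    constructor
    · rintro (h | h | h) <;> omega
    · intro h
      right
      right
      refine ⟨?_, ?_, ?_⟩ <;> omega

lemma HC8_sb (h B : ℕ) (h8 : h % 8 = 0) (hh8 : 8 ≤ h) (hB : 4 ≤ B) :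
    E1 (c7 B (h - 1)) (c6 B (h - 1)) (c5 B (h - 1)) ↔ c7 (B + 1) 0 := by
  rcases Nat.mod_two_eq_zero_or_one B with he | he
  · rw [HC8_s7e _ _ he, HC8_s7o _ _ (by omega), HC8_s6 _ _ hB, HC8_s5e _ _ hB he]
    unfold E1
    constructor
    · rintro (h | h | h) <;> omega
    · intro h
      omega
  · rw [HC8_s7o _ _ he, HC8_s7e _ _ (by omega), HC8_s6 _ _ hB, HC8_s5o _ _ hB he]
    unfold E1
    constructor
    · rintro (h | h | h) <;> omega
    · intro h
      right
      right
      refine ⟨?_, ?_, ?_⟩ <;> omega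

lemma HC8_s7c (B d : ℕ) (h : c7 B d) : d % 4 = 0 := by
  unfold c7 at h
  rcases h with h | h <;> omega

lemma HC8_s8 (B d t : ℕ) (hB : 4 ≤ B) (ht : t % 4 = d % 4) :
    E1 (t % 4 = 0 ∨ t % 4 = 3) (c7 B d) (c6 B d) ↔ ((t + 1) % 4 = 0 ∨ (t + 1) % 4 = 3) := by
  rw [HC8_s6 _ _ hB]
  unfold E1
  have h4 : t % 4 = 0 ∨ t % 4 = 1 ∨ t % 4 = 2 ∨ t % 4 = 3 := by omega
  rcases h4 with h4 | h4 | h4 | h4
  · constructor
    · rintro (⟨_, _, h⟩ | ⟨h, _, _⟩ | ⟨h, _, _⟩) <;> omega
    · intro h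
      omega
  · constructor
    · rintro (⟨h, _, _⟩ | ⟨_, h, _⟩ | ⟨_, _, h⟩)
      · omega
      · have := HC8_s7c B d h
        omega
      · omega
    · intro h
      omega
  · constructor
    · intro h
      omega
    · intro h
      right
      right
      refine ⟨by omega, ?_, by omega⟩
      intro h7
      have := HC8_s7c B d h7
      omega
  · constructor
    · intro h
      omega
    · intro h
      left
      refine ⟨by omega, ?_, by omega⟩
      intro h7
      have := HC8_s7c B d h7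
      omega

/-- column 7 -/
lemma HC8_c7 (h v : ℕ) (h8 : h % 8 = 0) (hh8 : 8 ≤ h) (C P Q : ℕ → Bool)
    (hP : Col h v P c6) (hQ : Col h v Q c5) (hv : 4 * h + 3 ≤ v)
    (hC : ∀ t < v, C (t + 1) = ex1 (C t) (P t) (Q t)) :
    ∀ B d, d < h → B * h + d ≤ v → 4 * h + 3 ≤ B * h + d → (C (B * h + d) = true ↔ c7 B d) := by
  have key : ∀ n, 4 * h + 3 + n ≤ v → ∀ B d, d < h → B * h + d = 4 * h + 3 + n →
      (C (4 * h + 3 + n) = true ↔ c7 B d) := by
    intro n
    induction n with
    | zero =>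
      intro hle B d hd he
      have e1 : C (4 * h + 3 + 0) = ex1 (C (4 * h + 2)) (P (4 * h + 2)) (Q (4 * h + 2)) := hC (4 * h + 2) (by omega)
      have hB : B = 4 ∧ d = 3 := by
        have hB1 : B < 5 := by
          by_contra hcon
          have := Nat.mul_le_mul_right h (not_lt.mp hcon)
          omega
        have hB2 : 4 ≤ B := by
          by_contra hcon
          have h2 : B + 1 ≤ 4 := by omega
          have := Nat.mul_le_mul_right h h2
          rw [Nat.succ_mul] at this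
          omega
        have hB3 : B = 4 := by omega
        subst hB3
        exact ⟨rfl, by omega⟩
      obtain ⟨rfl, rfl⟩ := hB
      have e2 := hP 4 2 (by omega) (by omega)
      have e3 := hQ 4 2 (by omega) (by omega)
      rw [e1, HC8_ex, HC8_E1 _ _ _ _ _ _ Iff.rfl e2 e3, HC8_s7e _ _ (by norm_num), HC8_s6 _ _ (by norm_num),
        HC8_s5e _ _ (by norm_num) (by norm_num)]
      unfold E1
      constructor
      · rintro (h | h | h) <;> omega
      · intro h
        omega
    | succ n ih =>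
      intro hle B d hd he
      have e1 : C (4 * h + 3 + (n + 1)) = ex1 (C (4 * h + 3 + n)) (P (4 * h + 3 + n)) (Q (4 * h + 3 + n)) :=
        hC (4 * h + 3 + n) (by omega)
      rw [e1, HC8_ex]
      rcases Nat.eq_zero_or_pos d with hd0 | hd0
      · subst hd0
        rcases B with _ | B
        · omega
        · have e : B * h + (h - 1) = 4 * h + 3 + n := by
            rw [Nat.succ_mul] at he
            omega
          have hB4 : 4 ≤ B := by
            by_contra hcon
            have h2 : B + 1 ≤ 4 := by omega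
            have := Nat.mul_le_mul_right h h2
            omega
          have i1 := ih (by omega) B (h - 1) (by omega) e
          have i2 := hP B (h - 1) (by omega) (by omega)
          have i3 := hQ B (h - 1) (by omega) (by omega)
          rw [e] at i2 i3
          rw [HC8_E1 _ _ _ _ _ _ i1 i2 i3]
          exact HC8_sb h B h8 hh8 hB4
      · obtain ⟨d', rfl⟩ : ∃ d', d = d' + 1 := ⟨d - 1, by omega⟩
        have e : B * h + d' = 4 * h + 3 + n := by omega
        have hB4 : 4 ≤ B := by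
          by_contra hcon
          have h2 : B + 1 ≤ 4 := by omega
          have := Nat.mul_le_mul_right h h2
          rw [Nat.succ_mul] at this
          omega
        have i1 := ih (by omega) B d' (by omega) e
        have i2 := hP B d' (by omega) (by omega)
        have i3 := hQ B d' (by omega) (by omega)
        rw [e] at i2 i3
        rw [HC8_E1 _ _ _ _ _ _ i1 i2 i3]
        exact HC8_st B d' hB4
  intro B d hd hle h4
  obtain ⟨n, hn⟩ : ∃ n, B * h + d = 4 * h + 3 + n := ⟨B * h + d - (4 * h + 3), by omega⟩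
  rw [hn]
  exact key n (by omega) B d hd hn

/-- column 8 -/
lemma HC8_c8 (h v : ℕ) (h8 : h % 8 = 0) (hh8 : 8 ≤ h) (C P Q : ℕ → Bool)
    (hP : ∀ B d, d < h → B * h + d ≤ v → 4 * h + 3 ≤ B * h + d → (P (B * h + d) = true ↔ c7 B d))
    (hQ : Col h v Q c6) (hv : 6 * h + 1 ≤ v)
    (hC : ∀ t < v, C (t + 1) = ex1 (C t) (P t) (Q t)) :
    ∀ t, 6 * h + 1 ≤ t → t ≤ v → (C t = true ↔ t % 4 = 0 ∨ t % 4 = 3) := by
  have key : ∀ n, 6 * h + 1 + n ≤ v → (C (6 * h + 1 + n) = true ↔ (6 * h + 1 + n) % 4 = 0 ∨ (6 * h + 1 + n) % 4 = 3) := by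
    intro n
    induction n with
    | zero =>
      intro hle
      have e1 : C (6 * h + 1 + 0) = ex1 (C (6 * h + 0)) (P (6 * h + 0)) (Q (6 * h + 0)) := hC (6 * h) (by omega)
      have e2 := hP 6 0 (by omega) (by omega) (by omega)
      have e3 := hQ 6 0 (by omega) (by omega)
      rw [e1, HC8_ex, HC8_E1 _ _ _ _ _ _ Iff.rfl e2 e3, HC8_s7e _ _ (by norm_num), HC8_s6 _ _ (by norm_num)]
      unfold E1
      constructor
      · rintro (h | h | h) <;> omega
      · intro h
        omega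
    | succ n ih =>
      intro hle
      have e1 : C (6 * h + 1 + (n + 1)) = ex1 (C (6 * h + 1 + n)) (P (6 * h + 1 + n)) (Q (6 * h + 1 + n)) :=
        hC (6 * h + 1 + n) (by omega)
      rw [e1, HC8_ex]
      obtain ⟨B, hB⟩ : ∃ B, B = (6 * h + 1 + n) / h := ⟨_, rfl⟩
      obtain ⟨d, hd⟩ : ∃ d, d = (6 * h + 1 + n) % h := ⟨_, rfl⟩
      have hlt : d < h := by
        rw [hd]
        exact Nat.mod_lt _ (by omega)
      have e : B * h + d = 6 * h + 1 + n := by
        rw [hB, hd, Nat.mul_comm]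
        exact Nat.div_add_mod _ _
      have hB4 : 6 ≤ B := by
        by_contra hcon
        have h2 : B + 1 ≤ 6 := by omega
        have := Nat.mul_le_mul_right h h2
        rw [Nat.succ_mul] at this
        omega
      have hmod : (6 * h + 1 + n) % 4 = d % 4 := by
        rw [← e]
        obtain ⟨c, hc⟩ : ∃ c, h = 4 * c := ⟨h / 4, by omega⟩
        rw [hc]
        have : B * (4 * c) = 4 * (B * c) := by ring
        rw [this]
        omega
      have i1 := ih (by omega)
      have i2 := hP B d hlt (by omega) (by omega)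
      have i3 := hQ B d hlt (by omega)
      rw [e] at i2 i3
      rw [HC8_E1 _ _ _ _ _ _ i1 i2 i3]
      exact HC8_s8 B d (6 * h + 1 + n) (by omega) hmod
  intro t h1 h2
  obtain ⟨n, rfl⟩ : ∃ n, t = 6 * h + 1 + n := ⟨t - (6 * h + 1), by omega⟩
  exact key n h2

theorem HC8 (h1 : HC3_stmt) : HC8_stmt := by
  intro k q h v x hpar hk hx
  obtain ⟨h5, h6⟩ := h1 k q h v x hpar hk hx
  obtain ⟨h8, hh8⟩ := HC8_mod8 k h hk hpar.hh
  have hv : 6 * h + 3 ≤ v := by
    have h2 := hpar.hv
    have h3 := hpar.hq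
    have h4 : h * 7 ≤ h * q := Nat.mul_le_mul_left h h3
    have h5 : 2 * h * q = 2 * (h * q) := by ring
    rw [h5] at h2
    omega
  have a7 := HC8_c7 h v h8 hh8 (fun t => x t (2 * h + 7)) (fun t => x t (2 * h + 6)) (fun t => x t (2 * h + 5)) h6 h5
    (by omega) (fun t ht => hx.s2 t ht (2 * h + 5))
  exact ⟨a7, HC8_c8 h v h8 hh8 (fun t => x t (2 * h + 8)) (fun t => x t (2 * h + 7)) (fun t => x t (2 * h + 6)) a7 h6
    (by omega) (fun t ht => hx.s2 t ht (2 * h + 6))⟩

end Pool.Agent.U4
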